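import Pool.Agent.Y650.TH.Final

/-!
# EDGE-STRONG is complete for polynomial time with parallel queries to NP

The class `InTheta2` consists of the languages which are decided in polynomial time with one round
of parallel queries to a language in `NP` (the class which is also known as `P^(NP[log])`). The
decision problem EDGE-STRONG has as input a finite simple graph, given by its adjacency matrix
`M : List (List Bool)`, and asks whether every edge lies in a clique which meets all maximal stable
sets.

Membership. Let `r` be the rank over the field with two elements of the vectors `(1_S, 1)`, where
`S` runs through the maximal stable sets. A clique meets `S` if and only if its product with the
vector of `S` is zero, so cliques which meet the sets of a basis are strong. The rank is found by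
parallel queries (a triangular system of sets and tests certifies independence).

Hardness. The class has the complete problem: given pairs of formulas `(φ_i, ψ_i)`, is there an `i`
such that `φ_i` is satisfiable and `ψ_i` is not? This is reduced to a covering problem with disjoint
sets, in which an element may stay uncovered only if a formula is unsatisfiable, and then to a graph
whose vertices are labels and whose maximal stable sets are the sets of labels which are compatible
with a state; exact covers of the states by labels are strong cliques, all edges but one always lie
in such cliques, and the last edge does if and only if there is a cover.
-/

set_option autoImplicit false

namespace Pool.Agent.Results.MP_38a5c8_lc.EdgeStrongParallelNP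

open Pool.Agent.NPC Pool.Agent.H622R2 Pool.Agent.Y650.TH

/-- **EDGE-STRONG is complete for the class of languages decidable in polynomial time with parallel
queries to `NP`**, under polynomial-time many-one reductions. -/
theorem result : InTheta2 (lang fun M : List (List Bool) => EdgeStrong (matGraph M)) ∧
    ∀ L : Set (List Bool), InTheta2 L →
      Reduces L (lang fun M : List (List Bool) => EdgeStrong (matGraph M)) :=
  ⟨mem_edgeStrong, fun _ hL => hardTh_edgeStrong.reduces hL⟩

end Pool.Agent.Results.MP_38a5c8_lc.EdgeStrongParallelNP
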